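import Mathlib

/-!
Coefficients of real polynomials without roots in the open right half plane:
the two by two relations `h a * h (a + 2k + 1) ≤ h (a+1) * h (a + 2k)` and
`h a * h (a + 2k + 2) ≤ h (a+2) * h (a + 2k)`.
-/

open Polynomial

namespace Pool.Agent.Helper79.AF2

/-- Coefficients of a polynomial as a function on the integers. -/
noncomputable def cf (p : ℝ[X]) (j : ℤ) : ℝ := if 0 ≤ j then p.coeff j.toNat else 0

/-- Nonnegative functions on the integers with the two by two relations. -/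
structure HM (H : ℤ → ℝ) : Prop where
  nn : ∀ j, 0 ≤ H j
  A : ∀ (a : ℤ) (k : ℕ), H a * H (a + 2 * k + 1) ≤ H (a + 1) * H (a + 2 * k)
  B : ∀ (a : ℤ) (k : ℕ), H a * H (a + 2 * k + 2) ≤ H (a + 2) * H (a + 2 * k)

theorem HM.C {H : ℤ → ℝ} (h : HM H) (a : ℤ) (k : ℕ) :
    H (a - 1) * H (a + 2 * k + 2) + H a * H (a + 2 * k + 1)
      ≤ H (a + 1) * H (a + 2 * k) + H (a + 2) * H (a + 2 * k - 1) := by
  rcases k with _ | k
  · have h1 := h.A (a - 1) 1
    have h2 := h.A a 0
    simp only [Nat.cast_zero, Nat.cast_one, mul_zero, add_zero, mul_one] at *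
    rw [show a - 1 + 2 + 1 = a + 2 by ring, show a - 1 + 1 = a by ring,
      show a - 1 + 2 = a + 1 by ring] at h1
    nlinarith
  · have h1 := h.A (a - 1) (k + 2)
    have h2 := h.A a (k + 1)
    have h3 := h.A (a + 1) k
    push_cast at *
    rw [show a - 1 + 2 * (↑k + 2) + 1 = a + 2 * (↑k + 1) + 2 by ring,
      show a - 1 + 1 = a by ring,
      show a - 1 + 2 * ((k : ℤ) + 2) = a + 2 * (↑k + 1) + 1 by ring] at h1
    rw [show a + 1 + 2 * (k : ℤ) + 1 = a + 2 * (↑k + 1) by ring,
      show a + 1 + 1 = a + 2 by ring,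
      show a + 1 + 2 * (k : ℤ) = a + 2 * (↑k + 1) - 1 by ring] at h3
    linarith

theorem HM.lin {H : ℤ → ℝ} (h : HM H) {r : ℝ} (hr : 0 ≤ r) :
    HM (fun j => H (j - 1) + r * H j) := by
  refine ⟨fun j => add_nonneg (h.nn _) (mul_nonneg hr (h.nn _)), fun a k => ?_, fun a k => ?_⟩
  · have h1 := h.A (a - 1) k
    have h2 := h.B (a - 1) k
    have h3 := h.A a k
    rw [show a - 1 + 2 * (k : ℤ) + 1 = a + 2 * k by ring, show a - 1 + 1 = a by ring,
      show a - 1 + 2 * (k : ℤ) = a + 2 * k - 1 by ring] at h1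
    rw [show a - 1 + 2 * (k : ℤ) + 2 = a + 2 * k + 1 by ring, show a - 1 + 2 = a + 1 by ring,
      show a - 1 + 2 * (k : ℤ) = a + 2 * k - 1 by ring] at h2
    rw [show a + 2 * (k : ℤ) + 1 - 1 = a + 2 * k by ring, show a + 1 - 1 = a by ring]
    have h2' := mul_le_mul_of_nonneg_left h2 hr
    have h3' := mul_le_mul_of_nonneg_left h3 (mul_nonneg hr hr)
    nlinarith
  · have h1 := h.B (a - 1) k
    have h2 := h.C a k
    have h3 := h.B a k
    rw [show a - 1 + 2 * (k : ℤ) + 2 = a + 2 * k + 1 by ring, show a - 1 + 2 = a + 1 by ring,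
      show a - 1 + 2 * (k : ℤ) = a + 2 * k - 1 by ring] at h1
    rw [show a + 2 * (k : ℤ) + 2 - 1 = a + 2 * k + 1 by ring, show a + 2 - 1 = a + 1 by ring]
    have h2' := mul_le_mul_of_nonneg_left h2 hr
    have h3' := mul_le_mul_of_nonneg_left h3 (mul_nonneg hr hr)
    nlinarith

theorem HM.quad {H : ℤ → ℝ} (h : HM H) {p q : ℝ} (hp : 0 ≤ p) (hq : 0 ≤ q) :
    HM (fun j => H (j - 2) + p * H (j - 1) + q * H j) := by
  refine ⟨fun j => add_nonneg (add_nonneg (h.nn _) (mul_nonneg hp (h.nn _)))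
    (mul_nonneg hq (h.nn _)), fun a k => ?_, fun a k => ?_⟩
  · rcases k with _ | k
    · simp only [Nat.cast_zero, mul_zero, add_zero]
      exact (mul_comm _ _).le
    have h1 := h.A (a - 2) (k + 1)
    have h2 := h.B (a - 2) (k + 1)
    have h3 := h.A (a - 1) (k + 1)
    have h4 := h.A (a - 2) (k + 2)
    have h5 := h.A a k
    have h6 := h.B (a - 1) (k + 1)
    have h7 := h.A a (k + 1)
    push_cast at *
    rw [show a - 2 + 2 * ((k : ℤ) + 1) + 1 = a + 2 * k + 1 by ring,
      show a - 2 + 1 = a - 1 by ring,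
      show a - 2 + 2 * ((k : ℤ) + 1) = a + 2 * k by ring] at h1
    rw [show a - 2 + 2 * ((k : ℤ) + 1) + 2 = a + 2 * k + 2 by ring,
      show a - 2 + 2 = a by ring,
      show a - 2 + 2 * ((k : ℤ) + 1) = a + 2 * k by ring] at h2
    rw [show a - 1 + 2 * ((k : ℤ) + 1) + 1 = a + 2 * k + 2 by ring,
      show a - 1 + 1 = a by ring,
      show a - 1 + 2 * ((k : ℤ) + 1) = a + 2 * k + 1 by ring] at h3
    rw [show a - 2 + 2 * ((k : ℤ) + 2) + 1 = a + 2 * k + 3 by ring,
      show a - 2 + 1 = a - 1 by ring,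
      show a - 2 + 2 * ((k : ℤ) + 2) = a + 2 * k + 2 by ring] at h4
    rw [show a - 1 + 2 * ((k : ℤ) + 1) + 2 = a + 2 * k + 3 by ring,
      show a - 1 + 2 = a + 1 by ring,
      show a - 1 + 2 * ((k : ℤ) + 1) = a + 2 * k + 1 by ring] at h6
    rw [show a + 2 * ((k : ℤ) + 1) + 1 = a + 2 * k + 3 by ring,
      show a + 2 * ((k : ℤ) + 1) = a + 2 * k + 2 by ring] at h7
    rw [show a + 2 * ((k : ℤ) + 1) + 1 = a + 2 * k + 3 by ring,
      show a + 2 * ((k : ℤ) + 1) = a + 2 * k + 2 by ring,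
      show a + 2 * (k : ℤ) + 3 - 2 = a + 2 * k + 1 by ring,
      show a + 2 * (k : ℤ) + 3 - 1 = a + 2 * k + 2 by ring,
      show a + 2 * (k : ℤ) + 2 - 2 = a + 2 * k by ring,
      show a + 2 * (k : ℤ) + 2 - 1 = a + 2 * k + 1 by ring,
      show a + 1 - 2 = a - 1 by ring, show a + 1 - 1 = a by ring]
    have e2 := mul_le_mul_of_nonneg_left h2 hp
    have e3 := mul_le_mul_of_nonneg_left h3 (mul_nonneg hp hp)
    have e4 := mul_le_mul_of_nonneg_left (add_le_add h4 h5) hq
    have e6 := mul_le_mul_of_nonneg_left h6 (mul_nonneg hp hq)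
    have e7 := mul_le_mul_of_nonneg_left h7 (mul_nonneg hq hq)
    generalize H (a - 2) = y1 at *
    generalize H (a - 1) = y2 at *
    generalize H a = y3 at *
    generalize H (a + 1) = y4 at *
    generalize H (a + 2 * ↑k) = y5 at *
    generalize H (a + 2 * ↑k + 1) = y6 at *
    generalize H (a + 2 * ↑k + 2) = y7 at *
    generalize H (a + 2 * ↑k + 3) = y8 at *
    nlinarith
  · rcases k with _ | k
    · simp only [Nat.cast_zero, mul_zero, add_zero]
      exact (mul_comm _ _).le
    have h1 := h.B (a - 2) (k + 1)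
    have h2 := h.C (a - 1) (k + 1)
    have h3 := h.B (a - 1) (k + 1)
    have h4 := h.B (a - 2) (k + 2)
    have h5 := h.B a k
    have h6 := h.C a (k + 1)
    have h7 := h.B a (k + 1)
    push_cast at *
    rw [show a - 2 + 2 * ((k : ℤ) + 1) + 2 = a + 2 * k + 2 by ring,
      show a - 2 + 2 = a by ring,
      show a - 2 + 2 * ((k : ℤ) + 1) = a + 2 * k by ring] at h1
    rw [show a - 1 - 1 = a - 2 by ring, show a - 1 + 2 * ((k : ℤ) + 1) + 2 = a + 2 * k + 3 by ring,
      show a - 1 + 2 * ((k : ℤ) + 1) + 1 = a + 2 * k + 2 by ring,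
      show a - 1 + 1 = a by ring, show a - 1 + 2 = a + 1 by ring,
      show a - 1 + 2 * ((k : ℤ) + 1) - 1 = a + 2 * k by ring,
      show a - 1 + 2 * ((k : ℤ) + 1) = a + 2 * k + 1 by ring] at h2
    rw [show a - 1 + 2 * ((k : ℤ) + 1) + 2 = a + 2 * k + 3 by ring,
      show a - 1 + 2 = a + 1 by ring,
      show a - 1 + 2 * ((k : ℤ) + 1) = a + 2 * k + 1 by ring] at h3
    rw [show a - 2 + 2 * ((k : ℤ) + 2) + 2 = a + 2 * k + 4 by ring,
      show a - 2 + 2 = a by ring,
      show a - 2 + 2 * ((k : ℤ) + 2) = a + 2 * k + 2 by ring] at h4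
    rw [show a + 2 * ((k : ℤ) + 1) + 2 = a + 2 * k + 4 by ring,
      show a + 2 * ((k : ℤ) + 1) + 1 = a + 2 * k + 3 by ring,
      show a + 2 * ((k : ℤ) + 1) - 1 = a + 2 * k + 1 by ring,
      show a + 2 * ((k : ℤ) + 1) = a + 2 * k + 2 by ring] at h6
    rw [show a + 2 * ((k : ℤ) + 1) + 2 = a + 2 * k + 4 by ring,
      show a + 2 * ((k : ℤ) + 1) = a + 2 * k + 2 by ring] at h7
    rw [show a + 2 * ((k : ℤ) + 1) + 2 = a + 2 * k + 4 by ring,
      show a + 2 * ((k : ℤ) + 1) = a + 2 * k + 2 by ring,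
      show a + 2 * (k : ℤ) + 4 - 2 = a + 2 * k + 2 by ring,
      show a + 2 * (k : ℤ) + 4 - 1 = a + 2 * k + 3 by ring,
      show a + 2 * (k : ℤ) + 2 - 2 = a + 2 * k by ring,
      show a + 2 * (k : ℤ) + 2 - 1 = a + 2 * k + 1 by ring,
      show a + 2 - 2 = a by ring, show a + 2 - 1 = a + 1 by ring]
    have e2 := mul_le_mul_of_nonneg_left h2 hp
    have e3 := mul_le_mul_of_nonneg_left h3 (mul_nonneg hp hp)
    have e4 := mul_le_mul_of_nonneg_left (add_le_add h4 h5) hq
    have e6 := mul_le_mul_of_nonneg_left h6 (mul_nonneg hp hq)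
    have e7 := mul_le_mul_of_nonneg_left h7 (mul_nonneg hq hq)
    generalize H (a - 2) = y1 at *
    generalize H (a - 1) = y2 at *
    generalize H a = y3 at *
    generalize H (a + 1) = y4 at *
    generalize H (a + 2) = y0 at *
    generalize H (a + 2 * ↑k) = y5 at *
    generalize H (a + 2 * ↑k + 1) = y6 at *
    generalize H (a + 2 * ↑k + 2) = y7 at *
    generalize H (a + 2 * ↑k + 3) = y8 at *
    generalize H (a + 2 * ↑k + 4) = y9 at *
    nlinarith

theorem cf_lin (p : ℝ[X]) (r : ℝ) (j : ℤ) :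
    cf ((X + C r) * p) j = cf p (j - 1) + r * cf p j := by
  unfold cf
  by_cases h0 : 0 ≤ j
  · obtain ⟨n, rfl⟩ := Int.eq_ofNat_of_zero_le h0
    rcases n with _ | n
    · simp [add_mul]
    · have e1 : ((n + 1 : ℕ) : ℤ) - 1 = (n : ℤ) := by push_cast; ring
      rw [e1]
      simp only [if_pos h0, if_pos (Int.natCast_nonneg n), Int.toNat_natCast]
      rw [add_mul, coeff_add, coeff_X_mul, coeff_C_mul]
  · have h1 : ¬ 0 ≤ j - 1 := by omega
    rw [if_neg h0, if_neg h1, if_neg h0, mul_zero, add_zero]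

theorem cf_quad (P : ℝ[X]) (p q : ℝ) (j : ℤ) :
    cf ((X ^ 2 + C p * X + C q) * P) j = cf P (j - 2) + p * cf P (j - 1) + q * cf P j := by
  have e : (X ^ 2 + C p * X + C q) * P = X * (X * P) + C p * (X * P) + C q * P := by ring
  unfold cf
  by_cases h0 : 0 ≤ j
  · obtain ⟨n, rfl⟩ := Int.eq_ofNat_of_zero_le h0
    rcases n with _ | _ | n
    · simp [e]
    · have e1 : ((0 + 1 : ℕ) : ℤ) - 2 = -1 := by norm_num
      have e2 : ((0 + 1 : ℕ) : ℤ) - 1 = ((0 : ℕ) : ℤ) := by norm_num
      rw [e1, e2]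
      simp only [if_pos h0, Int.toNat_natCast, if_pos (Int.natCast_nonneg 0), if_neg (by norm_num : ¬ (0 : ℤ) ≤ -1)]
      rw [e, coeff_add, coeff_add, coeff_X_mul, coeff_X_mul_zero, coeff_C_mul, coeff_X_mul, coeff_C_mul]
    · have e1 : ((n + 1 + 1 : ℕ) : ℤ) - 2 = (n : ℤ) := by push_cast; ring
      have e2 : ((n + 1 + 1 : ℕ) : ℤ) - 1 = ((n + 1 : ℕ) : ℤ) := by push_cast; ring
      rw [e1, e2]
      simp only [if_pos h0, if_pos (Int.natCast_nonneg _), Int.toNat_natCast]
      rw [e, coeff_add, coeff_add, coeff_X_mul, coeff_X_mul, coeff_C_mul, coeff_X_mul, coeff_C_mul]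
  · have h1 : ¬ 0 ≤ j - 1 := by omega
    have h2 : ¬ 0 ≤ j - 2 := by omega
    rw [if_neg h0, if_neg h1, if_neg h2, if_neg h0, mul_zero, mul_zero, add_zero, add_zero]

theorem HM_const {a : ℝ} (ha : 0 ≤ a) : HM (cf (C a)) := by
  have key : ∀ j : ℤ, j ≠ 0 → cf (C a) j = 0 := by
    intro j hj
    unfold cf
    by_cases h0 : 0 ≤ j
    · rw [if_pos h0, coeff_C, if_neg (by omega)]
    · rw [if_neg h0]
  have nn : ∀ j : ℤ, 0 ≤ cf (C a) j := by
    intro j
    by_cases hj : j = 0
    · subst hj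
      simp [cf, ha]
    · rw [key j hj]
  refine ⟨nn, fun i k => ?_, fun i k => ?_⟩
  · by_cases hi : i = 0
    · rw [key (i + 2 * k + 1) (by omega), mul_zero]
      exact mul_nonneg (nn _) (nn _)
    · rw [key i hi, zero_mul]
      exact mul_nonneg (nn _) (nn _)
  · by_cases hi : i = 0
    · rw [key (i + 2 * k + 2) (by omega), mul_zero]
      exact mul_nonneg (nn _) (nn _)
    · rw [key i hi, zero_mul]
      exact mul_nonneg (nn _) (nn _)

/-- A real polynomial with positive leading coefficient and no root in the open right half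
plane satisfies the two by two relations. -/
theorem HM_of_roots : ∀ (n : ℕ) (p : ℝ[X]), p.natDegree = n → 0 < p.leadingCoeff →
    (∀ z : ℂ, aeval z p = 0 → z.re ≤ 0) → HM (cf p) := by
  intro n
  induction n using Nat.strong_induction_on with
  | _ n ih =>
    intro p hn hl hr
    by_cases h0 : n = 0
    · rw [h0] at hn
      obtain ⟨a, rfl⟩ := natDegree_eq_zero.1 hn
      apply HM_const
      simpa using hl.le
    have hp0 : p ≠ 0 := by
      rintro rfl
      simp at hl
    obtain ⟨z, hz⟩ : ∃ z : ℂ, aeval z p = 0 := by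
      have hd : 0 < (p.map (algebraMap ℝ ℂ)).degree := by
        rw [degree_map]
        exact natDegree_pos_iff_degree_pos.1 (by omega)
      obtain ⟨z, hz⟩ := Complex.exists_root hd
      refine ⟨z, ?_⟩
      rw [aeval_def, ← eval_map]
      exact hz
    by_cases hi : z.im = 0
    · have hzr : ((z.re : ℝ) : ℂ) = z := by
        apply Complex.ext <;> simp [hi]
      have hre : p.IsRoot z.re := by
        have h1 : aeval ((z.re : ℝ) : ℂ) p = 0 := by rw [hzr]; exact hz
        have h2 : ((eval z.re p : ℝ) : ℂ) = 0 := by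
          rw [← h1]
          exact (aeval_algebraMap_apply_eq_algebraMap_eval z.re p).symm
        exact_mod_cast h2
      obtain ⟨q, hq⟩ := dvd_iff_isRoot.2 hre
      have hq' : p = (X + C (-z.re)) * q := by rw [hq, C_neg, sub_eq_add_neg]
      have hq0 : q ≠ 0 := by
        rintro rfl
        exact hp0 (by rw [hq, mul_zero])
      have hm : (X - C z.re : ℝ[X]).Monic := monic_X_sub_C _
      have hdeg : p.natDegree = 1 + q.natDegree := by
        rw [hq, hm.natDegree_mul' hq0, natDegree_X_sub_C]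
      have hlq : 0 < q.leadingCoeff := by
        have : p.leadingCoeff = q.leadingCoeff := by
          rw [hq, leadingCoeff_mul, hm.leadingCoeff, one_mul]
        rwa [← this]
      have hq1 := ih q.natDegree (by omega) q rfl hlq (fun w hw => hr w (by
        rw [hq, map_mul, hw, mul_zero]))
      have := hq1.lin (r := -z.re) (by have := hr z hz; linarith)
      rw [hq']
      convert this using 1
      funext j
      exact cf_lin q _ j
    · obtain ⟨q, hq⟩ := p.quadratic_dvd_of_aeval_eq_zero_im_ne_zero hz hi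
      have hq' : p = (X ^ 2 + C (-(2 * z.re)) * X + C (‖z‖ ^ 2)) * q := by
        rw [hq]
        congr 1
        rw [C_neg]
        ring
      have hq0 : q ≠ 0 := by
        rintro rfl
        exact hp0 (by rw [hq, mul_zero])
      have hm : (X ^ 2 - C (2 * z.re) * X + C (‖z‖ ^ 2) : ℝ[X]).Monic := by
        rw [sub_add]
        apply monic_X_pow_sub
        apply (degree_sub_le _ _).trans_lt
        rw [max_lt_iff]
        constructor
        · exact (degree_C_mul_X_le _).trans_lt (by norm_num)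
        · exact degree_C_le.trans_lt (by norm_num)
      have hd2 : (X ^ 2 - C (2 * z.re) * X + C (‖z‖ ^ 2) : ℝ[X]).natDegree = 2 := by
        compute_degree!
      have hdeg : p.natDegree = 2 + q.natDegree := by
        rw [hq, hm.natDegree_mul' hq0, hd2]
      have hlq : 0 < q.leadingCoeff := by
        have : p.leadingCoeff = q.leadingCoeff := by
          rw [hq, leadingCoeff_mul, hm.leadingCoeff, one_mul]
        rwa [← this]
      have hq1 := ih q.natDegree (by omega) q rfl hlq (fun w hw => hr w (by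
        rw [hq, map_mul, hw, mul_zero]))
      have := hq1.quad (p := -(2 * z.re)) (q := ‖z‖ ^ 2)
        (by have := hr z hz; linarith) (by positivity)
      rw [hq']
      convert this using 1
      funext j
      exact cf_quad q _ _ j

/-- Same conclusion if some coefficient is positive. -/
theorem HM_of_coeff_pos (p : ℝ[X]) {j : ℕ} (hj : 0 < p.coeff j)
    (hr : ∀ z : ℂ, aeval z p = 0 → z.re ≤ 0) : HM (cf p) := by
  have hp0 : p ≠ 0 := by
    rintro rfl
    simp at hj
  have hl : p.leadingCoeff ≠ 0 := leadingCoeff_ne_zero.2 hp0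
  rcases lt_or_gt_of_ne hl with hl | hl
  · exfalso
    have h1 := HM_of_roots _ (-p) rfl (by rw [leadingCoeff_neg]; linarith)
      (fun z hz => hr z (by rw [map_neg] at hz; exact neg_eq_zero.1 hz))
    have h2 := h1.nn j
    simp only [cf, Int.natCast_nonneg, if_true, Int.toNat_natCast, coeff_neg] at h2
    linarith
  · exact HM_of_roots _ p rfl hl hr

end Pool.Agent.Helper79.AF2
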