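import Pool.Agent.Helper79.AF2.Hurwitz

/-!
Local two by two relations for the coefficient array `g m k` (coefficient of
`z ^ (N - k - 2 m) * w ^ k`) of a polynomial in two variables without zeros in the product of
two right half planes.
-/

open Polynomial Finset

namespace Pool.Agent.Helper79.AF2

/-- All roots in the open left half plane. -/
def LHP (R : ℂ[X]) : Prop := ∀ w : ℂ, R.eval w = 0 → w.re < 0

theorem LHP.quot {R : ℂ[X]} (h : LHP R) {x : ℂ} (hx : 0 ≤ x.re) :
    R.eval x ≠ 0 ∧ 0 ≤ (R.derivative.eval x / R.eval x).re ∧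
      (1 ≤ R.natDegree → 0 < (R.derivative.eval x / R.eval x).re) := by
  have h0 : R.eval x ≠ 0 := by
    intro h1
    have := h x h1
    linarith
  have hR0 : R ≠ 0 := by
    rintro rfl
    simp at h0
  have e : R.derivative.eval x / R.eval x = (R.roots.map fun y => 1 / (x - y)).sum :=
    (IsAlgClosed.splits R).eval_derivative_div_eval_of_ne_zero h0
  have key : ∀ y ∈ R.roots, 0 < (1 / (x - y)).re := by
    intro y hy
    have hy1 : y.re < 0 := h y ((mem_roots hR0).1 hy)
    have h2 : 0 < (x - y).re := by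
      rw [Complex.sub_re]
      linarith
    have h3 : x - y ≠ 0 := by
      intro h4
      rw [h4] at h2
      simp at h2
    rw [one_div, Complex.inv_re]
    exact div_pos h2 (Complex.normSq_pos.2 h3)
  have hs : (R.roots.map fun y => 1 / (x - y)).sum.re =
      (R.roots.map fun y => (1 / (x - y)).re).sum := by
    rw [← Complex.coe_reAddGroupHom, map_multiset_sum, Multiset.map_map]
    rfl
  refine ⟨h0, ?_, fun hd => ?_⟩
  · rw [e, hs]
    apply Multiset.sum_nonneg
    intro a ha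
    obtain ⟨y, hy, rfl⟩ := Multiset.mem_map.1 ha
    exact (key y hy).le
  · rw [e, hs]
    have hcard : Multiset.card R.roots = R.natDegree := (IsAlgClosed.splits R).natDegree_eq_card_roots.symm
    obtain ⟨y, hy⟩ := Multiset.card_pos_iff_exists_mem.1 (by omega : 0 < Multiset.card R.roots)
    obtain ⟨t, ht⟩ := Multiset.exists_cons_of_mem hy
    have h5 : 0 ≤ (t.map fun y => (1 / (x - y)).re).sum := by
      apply Multiset.sum_nonneg
      intro a ha
      obtain ⟨y', hy', rfl⟩ := Multiset.mem_map.1 ha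
      exact (key y' (by rw [ht]; exact Multiset.mem_cons_of_mem hy')).le
    rw [ht, Multiset.map_cons, Multiset.sum_cons]
    have := key y hy
    linarith

theorem LHP.derivative {R : ℂ[X]} (h : LHP R) (hd : 1 ≤ R.natDegree) : LHP R.derivative := by
  intro w hw
  by_contra hneg
  have h1 := (h.quot (x := w) (not_lt.1 hneg)).2.2 hd
  rw [hw, zero_div, Complex.zero_re] at h1
  exact lt_irrefl _ h1

theorem LHP.iterate {R : ℂ[X]} (h : LHP R) : ∀ k, k ≤ R.natDegree →
    LHP (Polynomial.derivative^[k] R) ∧ (Polynomial.derivative^[k] R).natDegree = R.natDegree - k := by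
  intro k
  induction k with
  | zero => intro _; exact ⟨h, by simp⟩
  | succ k ih =>
    intro hk
    obtain ⟨h1, h2⟩ := ih (by omega)
    rw [Function.iterate_succ_apply']
    refine ⟨h1.derivative (by omega), ?_⟩
    have h3 := natDegree_derivative (p := Polynomial.derivative^[k] R)
    rw [h3, h2]
    omega

/-- The two-variable array with its stability properties. -/
structure Arr (N : ℕ) (g : ℕ → ℕ → ℝ) : Prop where
  supp : ∀ m k, N < 2 * m + k → g m k = 0
  pos0 : ∀ k, k ≤ N → 0 < g 0 k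
  stab : ∀ z w : ℂ, 0 < z.re → 0 ≤ w.re →
    ∑ k ∈ range (N + 1), (∑ m ∈ range (N + 1), (g m k : ℂ) * z ^ (N - k - 2 * m)) * w ^ k ≠ 0
  stab' : ∀ z w : ℂ, 0 ≤ z.re → 0 < w.re →
    ∑ k ∈ range (N + 1), (∑ m ∈ range (N + 1), (g m k : ℂ) * z ^ (N - k - 2 * m)) * w ^ k ≠ 0

/-- The coefficient of `w ^ k` as a polynomial in `z`. -/
noncomputable def Phi (N : ℕ) (g : ℕ → ℕ → ℝ) (k : ℕ) : ℝ[X] :=
  ∑ m ∈ range (N + 1), C (g m k) * X ^ (N - k - 2 * m)

theorem aeval_Phi (N : ℕ) (g : ℕ → ℕ → ℝ) (k : ℕ) (z : ℂ) :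
    aeval z (Phi N g k) = ∑ m ∈ range (N + 1), (g m k : ℂ) * z ^ (N - k - 2 * m) := by
  simp [Phi, aeval_C]

theorem coeff_Phi {N : ℕ} {g : ℕ → ℕ → ℝ} (hs : ∀ m k, N < 2 * m + k → g m k = 0) {k m : ℕ}
    (hk : 2 * m + k ≤ N) : (Phi N g k).coeff (N - k - 2 * m) = g m k := by
  unfold Phi
  rw [finsetSum_coeff, sum_eq_single m]
  · rw [coeff_C_mul, coeff_X_pow, if_pos rfl, mul_one]
  · intro b _ hb
    rw [coeff_C_mul, coeff_X_pow]
    by_cases h : N < 2 * b + k
    · rw [hs b k h, zero_mul]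
    · rw [if_neg (by omega), mul_zero]
  · intro h
    exfalso
    apply h
    rw [mem_range]
    omega

theorem coeff_Phi_zero {N : ℕ} {g : ℕ → ℕ → ℝ} (hs : ∀ m k, N < 2 * m + k → g m k = 0) {k j : ℕ}
    (hj : ∀ m, 2 * m + k ≤ N → j ≠ N - k - 2 * m) : (Phi N g k).coeff j = 0 := by
  unfold Phi
  rw [finsetSum_coeff]
  apply sum_eq_zero
  intro b _
  rw [coeff_C_mul, coeff_X_pow]
  by_cases h : N < 2 * b + k
  · rw [hs b k h, zero_mul]
  · rw [if_neg (hj b (by omega)), mul_zero]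

/-- The sum of two consecutive coefficient polynomials. -/
noncomputable def HH (N : ℕ) (g : ℕ → ℕ → ℝ) (k : ℕ) : ℝ[X] := Phi N g k + Phi N g (k + 1)

theorem cf_HH0 {N : ℕ} {g : ℕ → ℕ → ℝ} (hs : ∀ m k, N < 2 * m + k → g m k = 0) (k m : ℕ) :
    cf (HH N g k) ((N : ℤ) - k - 2 * m) = g m k := by
  unfold cf HH
  by_cases h : 2 * m + k ≤ N
  · have e : ((N : ℤ) - k - 2 * m) = ((N - k - 2 * m : ℕ) : ℤ) := by omega
    rw [e, if_pos (Int.natCast_nonneg _), Int.toNat_natCast, coeff_add, coeff_Phi hs h,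
      coeff_Phi_zero hs (by intro b hb; omega), add_zero]
  · rw [if_neg (by omega), hs m k (by omega)]

theorem cf_HH1 {N : ℕ} {g : ℕ → ℕ → ℝ} (hs : ∀ m k, N < 2 * m + k → g m k = 0) (k m : ℕ) :
    cf (HH N g k) ((N : ℤ) - k - 1 - 2 * m) = g m (k + 1) := by
  unfold cf HH
  by_cases h : 2 * m + (k + 1) ≤ N
  · have e : ((N : ℤ) - k - 1 - 2 * m) = ((N - (k + 1) - 2 * m : ℕ) : ℤ) := by omega
    rw [e, if_pos (Int.natCast_nonneg _), Int.toNat_natCast, coeff_add, coeff_Phi hs h,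
      coeff_Phi_zero hs (by intro b hb; omega), zero_add]
  · rw [if_neg (by omega), hs m (k + 1) (by omega)]

theorem Phi_ne {N : ℕ} {g : ℕ → ℕ → ℝ} (hs : ∀ m k, N < 2 * m + k → g m k = 0)
    (htop : 0 < g 0 N)
    (stab : ∀ z w : ℂ, 0 < z.re → 0 ≤ w.re →
      ∑ k ∈ range (N + 1), (∑ m ∈ range (N + 1), (g m k : ℂ) * z ^ (N - k - 2 * m)) * w ^ k ≠ 0)
    {z : ℂ} (hz : 0 < z.re) {k : ℕ} (hk : k ≤ N) :
    aeval z (Phi N g k) ≠ 0 ∧ aeval z (HH N g k) ≠ 0 := by
  set R : ℂ[X] := ∑ k ∈ range (N + 1), C (aeval z (Phi N g k)) * X ^ k with hR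
  have hcoeff : ∀ j, R.coeff j = if j ≤ N then aeval z (Phi N g j) else 0 := by
    intro j
    rw [hR, finsetSum_coeff]
    simp only [coeff_C_mul, coeff_X_pow]
    split_ifs with h
    · rw [sum_eq_single j]
      · simp
      · intro b _ hb
        rw [if_neg (Ne.symm hb), mul_zero]
      · intro h1
        exact absurd (mem_range.2 (by omega)) h1
    · apply sum_eq_zero
      intro b hb
      rw [if_neg, mul_zero]
      rw [mem_range] at hb
      omega
  have hN : R.coeff N = (g 0 N : ℂ) := by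
    rw [hcoeff, if_pos le_rfl, aeval_Phi, sum_eq_single 0]
    · simp
    · intro b _ hb
      rw [hs b N (by omega)]
      simp
    · intro h
      exact absurd (mem_range.2 (by omega)) h
  have hdeg : R.natDegree = N := by
    apply natDegree_eq_of_le_of_coeff_ne_zero
    · rw [natDegree_le_iff_coeff_eq_zero]
      intro j hj
      rw [hcoeff, if_neg (by omega)]
    · rw [hN]
      exact_mod_cast htop.ne'
  have hL : LHP R := by
    intro w hw
    by_contra hneg
    apply stab z w hz (not_lt.1 hneg)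
    rw [← hw, hR, eval_finsetSum]
    apply sum_congr rfl
    intro j _
    rw [eval_mul, eval_C, eval_pow, eval_X, aeval_Phi]
  obtain ⟨h1, h2⟩ := hL.iterate k (by omega)
  have e0 : (Polynomial.derivative^[k] R).eval 0 = (k.factorial : ℂ) * aeval z (Phi N g k) := by
    rw [← coeff_zero_eq_eval_zero, coeff_iterate_derivative, zero_add, hcoeff, if_pos hk,
      Nat.descFactorial_self, nsmul_eq_mul]
  have e1 : (Polynomial.derivative^[k] R).derivative.eval 0 =
      ((k + 1).factorial : ℂ) * aeval z (Phi N g (k + 1)) := by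
    rw [← Function.iterate_succ_apply' Polynomial.derivative k R, ← coeff_zero_eq_eval_zero,
      coeff_iterate_derivative, zero_add, hcoeff, Nat.descFactorial_self, nsmul_eq_mul]
    split_ifs with h
    · rfl
    · have : Phi N g (k + 1) = 0 := by
        ext j
        rw [coeff_Phi_zero hs (by intro m hm; omega), coeff_zero]
      rw [this, map_zero]
  obtain ⟨h3, h4, _⟩ := h1.quot (x := 0) (by simp)
  rw [e0] at h3
  have hPhi : aeval z (Phi N g k) ≠ 0 := fun h => h3 (by rw [h, mul_zero])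
  refine ⟨hPhi, ?_⟩
  intro hH
  unfold HH at hH
  rw [map_add] at hH
  have e2 : aeval z (Phi N g (k + 1)) = - aeval z (Phi N g k) := by
    linear_combination hH
  rw [e0, e1, e2, Nat.factorial_succ] at h4
  have e3 : ((((k + 1) * k.factorial : ℕ) : ℂ) * -(aeval z (Phi N g k)) /
      ((k.factorial : ℂ) * aeval z (Phi N g k))) = ((-((k : ℝ) + 1) : ℝ) : ℂ) := by
    have hf : (k.factorial : ℂ) ≠ 0 := by exact_mod_cast Nat.factorial_ne_zero k
    push_cast
    field_simp
  rw [e3, Complex.ofReal_re] at h4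
  have : (0 : ℝ) ≤ k := Nat.cast_nonneg k
  linarith

theorem HM_HH {N : ℕ} {g : ℕ → ℕ → ℝ} (hs : ∀ m k, N < 2 * m + k → g m k = 0)
    (htop : 0 < g 0 N)
    (stab : ∀ z w : ℂ, 0 < z.re → 0 ≤ w.re →
      ∑ k ∈ range (N + 1), (∑ m ∈ range (N + 1), (g m k : ℂ) * z ^ (N - k - 2 * m)) * w ^ k ≠ 0) :
    ∀ d k, k + d = N → HM (cf (HH N g k)) := by
  have roots : ∀ k, k ≤ N → ∀ z : ℂ, aeval z (HH N g k) = 0 → z.re ≤ 0 := by
    intro k hk z hz
    by_contra hneg
    exact (Phi_ne hs htop stab (not_le.1 hneg) hk).2 hz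
  intro d
  induction d with
  | zero =>
    intro k hk
    have hkN : k = N := by omega
    subst hkN
    apply HM_of_coeff_pos (HH k g k) (j := 0) _ (roots k le_rfl)
    have h1 := cf_HH0 hs k 0
    unfold cf at h1
    rw [if_pos (by push_cast; omega)] at h1
    have e : ((k : ℤ) - k - 2 * ((0 : ℕ) : ℤ)).toNat = 0 := by simp
    rw [e] at h1
    rw [h1]
    exact htop
  | succ d ih =>
    intro k hk
    have h1 := ih (k + 1) (by omega)
    -- the row `k + 1` has a positive entry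
    have hne := (Phi_ne hs htop stab (z := 1) (by simp) (k := k + 1) (by omega)).1
    obtain ⟨j, hj⟩ : ∃ j, (Phi N g (k + 1)).coeff j ≠ 0 := by
      by_contra hcon
      push Not at hcon
      apply hne
      have : Phi N g (k + 1) = 0 := by
        ext j
        rw [hcon j, coeff_zero]
      rw [this, map_zero]
    have hm : ∃ m, 2 * m + (k + 1) ≤ N ∧ j = N - (k + 1) - 2 * m := by
      by_contra hcon
      push Not at hcon
      exact hj (coeff_Phi_zero hs (fun m hm => hcon m hm))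
    obtain ⟨m, hm1, hm2⟩ := hm
    rw [hm2, coeff_Phi hs hm1] at hj
    have hnn : 0 ≤ g m (k + 1) := by
      rw [← cf_HH0 hs (k + 1) m]
      exact h1.nn _
    have hpos : 0 < g m (k + 1) := lt_of_le_of_ne hnn (Ne.symm hj)
    apply HM_of_coeff_pos (HH N g k) (j := N - (k + 1) - 2 * m) _ (roots k (by omega))
    have h2 := cf_HH1 hs k m
    unfold cf at h2
    rw [if_pos (by omega)] at h2
    have e : ((N : ℤ) - k - 1 - 2 * m).toNat = N - (k + 1) - 2 * m := by omega
    rw [e] at h2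
    rw [h2]
    exact hpos

/-- First half of the local relations, `c = g _ k`, `d = g _ (k + 1)`. -/
theorem rels {N : ℕ} {g : ℕ → ℕ → ℝ} (hs : ∀ m k, N < 2 * m + k → g m k = 0)
    (htop : 0 < g 0 N)
    (stab : ∀ z w : ℂ, 0 < z.re → 0 ≤ w.re →
      ∑ k ∈ range (N + 1), (∑ m ∈ range (N + 1), (g m k : ℂ) * z ^ (N - k - 2 * m)) * w ^ k ≠ 0) :
    (∀ m k, 0 ≤ g m k) ∧
    (∀ m k, g m k * g (m + 1) (k + 1) ≤ g (m + 1) k * g m (k + 1)) ∧
    (∀ m k, g (m + 2) k * g m (k + 1) ≤ g (m + 1) k * g (m + 1) (k + 1)) ∧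
    (∀ m k, g (m + 1) k * g 0 k ≤ g m k * g 1 k) := by
  have hM : ∀ k, k ≤ N → HM (cf (HH N g k)) := fun k hk =>
    HM_HH hs htop stab (N - k) k (by omega)
  have nn : ∀ m k, 0 ≤ g m k := by
    intro m k
    by_cases hk : k ≤ N
    · rw [← cf_HH0 hs k m]
      exact (hM k hk).nn _
    · rw [hs m k (by omega)]
  refine ⟨nn, ?_, ?_, ?_⟩
  · intro m k
    by_cases hk : k ≤ N
    · have h := (hM k hk).A ((N : ℤ) - k - 2 * m - 3) 1
      have e1 : (N : ℤ) - k - 2 * m - 3 = (N : ℤ) - k - 1 - 2 * ((m + 1 : ℕ) : ℤ) := by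
        push_cast; ring
      have e2 : (N : ℤ) - k - 2 * m - 3 + 2 * ((1 : ℕ) : ℤ) + 1 = (N : ℤ) - k - 2 * (m : ℤ) := by
        push_cast; ring
      have e3 : (N : ℤ) - k - 2 * m - 3 + 1 = (N : ℤ) - k - 2 * ((m + 1 : ℕ) : ℤ) := by
        push_cast; ring
      have e4 : (N : ℤ) - k - 2 * m - 3 + 2 * ((1 : ℕ) : ℤ) = (N : ℤ) - k - 1 - 2 * (m : ℤ) := by
        push_cast; ring
      rw [e2, e3, e4, e1, cf_HH1 hs, cf_HH0 hs, cf_HH0 hs, cf_HH1 hs] at h
      linarith
    · rw [hs m k (by omega), zero_mul]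
      exact mul_nonneg (nn _ _) (nn _ _)
  · intro m k
    by_cases hk : k ≤ N
    · have h := (hM k hk).A ((N : ℤ) - k - 2 * m - 4) 1
      have e1 : (N : ℤ) - k - 2 * m - 4 = (N : ℤ) - k - 2 * ((m + 2 : ℕ) : ℤ) := by
        push_cast; ring
      have e2 : (N : ℤ) - k - 2 * m - 4 + 2 * ((1 : ℕ) : ℤ) + 1 = (N : ℤ) - k - 1 - 2 * (m : ℤ) := by
        push_cast; ring
      have e3 : (N : ℤ) - k - 2 * m - 4 + 1 = (N : ℤ) - k - 1 - 2 * ((m + 1 : ℕ) : ℤ) := by
        push_cast; ring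
      have e4 : (N : ℤ) - k - 2 * m - 4 + 2 * ((1 : ℕ) : ℤ) = (N : ℤ) - k - 2 * ((m + 1 : ℕ) : ℤ) := by
        push_cast; ring
      rw [e2, e3, e4, e1, cf_HH1 hs, cf_HH0 hs, cf_HH0 hs, cf_HH1 hs] at h
      linarith
    · rw [hs (m + 2) k (by omega), zero_mul]
      exact mul_nonneg (nn _ _) (nn _ _)
  · intro m k
    by_cases hk : k ≤ N
    · have h := (hM k hk).B ((N : ℤ) - k - 2 * ((m + 1 : ℕ) : ℤ)) m
      have e2 : (N : ℤ) - k - 2 * ((m + 1 : ℕ) : ℤ) + 2 * m + 2 = (N : ℤ) - k - 2 * ((0 : ℕ) : ℤ) := by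
        push_cast; ring
      have e3 : (N : ℤ) - k - 2 * ((m + 1 : ℕ) : ℤ) + 2 = (N : ℤ) - k - 2 * (m : ℤ) := by
        push_cast; ring
      have e4 : (N : ℤ) - k - 2 * ((m + 1 : ℕ) : ℤ) + 2 * m = (N : ℤ) - k - 2 * ((1 : ℕ) : ℤ) := by
        push_cast; ring
      rw [e2, e3, e4, cf_HH0 hs, cf_HH0 hs, cf_HH0 hs, cf_HH0 hs] at h
      exact h
    · rw [hs (m + 1) k (by omega), zero_mul]
      exact mul_nonneg (nn _ _) (nn _ _)

/-- The array with the roles of `z` and `w` exchanged. -/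
def sw (N : ℕ) (g : ℕ → ℕ → ℝ) (m q : ℕ) : ℝ := if 2 * m + q ≤ N then g m (N - q - 2 * m) else 0

theorem sw_sum {N : ℕ} {g : ℕ → ℕ → ℝ} (hs : ∀ m k, N < 2 * m + k → g m k = 0) (z w : ℂ) :
    ∑ q ∈ range (N + 1), (∑ m ∈ range (N + 1), (sw N g m q : ℂ) * w ^ (N - q - 2 * m)) * z ^ q =
    ∑ k ∈ range (N + 1), (∑ m ∈ range (N + 1), (g m k : ℂ) * z ^ (N - k - 2 * m)) * w ^ k := by
  simp only [sum_mul]
  rw [sum_comm, sum_comm (s := range (N + 1)) (t := range (N + 1))
    (f := fun k m => (g m k : ℂ) * z ^ (N - k - 2 * m) * w ^ k)]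
  apply sum_congr rfl
  intro m _
  by_cases hm : 2 * m ≤ N
  · obtain ⟨n, hn⟩ := Nat.exists_eq_add_of_le hm
    have h1 : ∀ f : ℕ → ℂ, (∀ q, n < q → f q = 0) →
        ∑ q ∈ range (N + 1), f q = ∑ q ∈ range (n + 1), f q := by
      intro f hf
      symm
      apply sum_subset
      · intro x hx
        rw [mem_range] at *
        omega
      · intro x _ hx
        apply hf
        rw [mem_range] at hx
        omega
    rw [h1 (fun q => (sw N g m q : ℂ) * w ^ (N - q - 2 * m) * z ^ q) (by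
        intro q hq
        simp only [sw]
        rw [if_neg (by omega)]
        simp),
      h1 (fun k => (g m k : ℂ) * z ^ (N - k - 2 * m) * w ^ k) (by
        intro q hq
        rw [hs m q (by omega)]
        simp)]
    rw [← sum_range_reflect]
    apply sum_congr rfl
    intro k hk
    rw [mem_range] at hk
    have e1 : sw N g m (n + 1 - 1 - k) = g m k := by
      unfold sw
      rw [if_pos (by omega)]
      congr 1
      omega
    rw [e1]
    have e2 : N - (n + 1 - 1 - k) - 2 * m = k := by omega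
    have e3 : n + 1 - 1 - k = N - k - 2 * m := by omega
    rw [e2, e3]
    ring
  · rw [sum_eq_zero, sum_eq_zero]
    · intro k _
      rw [hs m k (by omega)]
      simp
    · intro q _
      unfold sw
      rw [if_neg (by omega)]
      simp

/-- All local relations of a stable array. -/
theorem Arr.rels {N : ℕ} {g : ℕ → ℕ → ℝ} (h : Arr N g) :
    (∀ m k, 0 ≤ g m k) ∧
    (∀ m k, g m k * g (m + 1) (k + 1) ≤ g (m + 1) k * g m (k + 1)) ∧
    (∀ m k, g (m + 2) k * g m (k + 1) ≤ g (m + 1) k * g (m + 1) (k + 1)) ∧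
    (∀ m k, g m (k + 3) * g (m + 1) k ≤ g m (k + 2) * g (m + 1) (k + 1)) ∧
    (∀ m k, g m (k + 3) * g (m + 2) k ≤ g (m + 1) (k + 2) * g (m + 1) (k + 1)) ∧
    (∀ m k, k ≤ N → 0 < g (m + 1) k → 0 < g m k) := by
  obtain ⟨nn, r1, r2, r0⟩ := Pool.Agent.Helper79.AF2.rels h.supp (h.pos0 N le_rfl) h.stab
  have hs' : ∀ m k, N < 2 * m + k → sw N g m k = 0 := by
    intro m k hk
    unfold sw
    rw [if_neg (by omega)]
  have htop' : 0 < sw N g 0 N := by
    unfold sw
    rw [if_pos (by omega)]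
    exact h.pos0 _ (by omega)
  obtain ⟨nn', s1, s2, _⟩ := Pool.Agent.Helper79.AF2.rels hs' htop' (by
    intro z w hz hw
    rw [sw_sum h.supp w z]
    exact h.stab' w z hw hz)
  refine ⟨nn, r1, r2, ?_, ?_, ?_⟩
  · intro m k
    by_cases hk : 2 * m + (k + 3) ≤ N
    · have h1 := s1 m (N - (k + 3) - 2 * m)
      unfold sw at h1
      rw [if_pos (by omega), if_pos (by omega), if_pos (by omega), if_pos (by omega)] at h1
      rw [show N - (N - (k + 3) - 2 * m) - 2 * m = k + 3 by omega,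
        show N - (N - (k + 3) - 2 * m + 1) - 2 * (m + 1) = k by omega,
        show N - (N - (k + 3) - 2 * m) - 2 * (m + 1) = k + 1 by omega,
        show N - (N - (k + 3) - 2 * m + 1) - 2 * m = k + 2 by omega] at h1
      linarith
    · rw [h.supp m (k + 3) (by omega), zero_mul]
      exact mul_nonneg (nn _ _) (nn _ _)
  · intro m k
    by_cases hk : 2 * (m + 2) + k ≤ N
    · have h1 := s2 m (N - k - 2 * (m + 2))
      unfold sw at h1
      rw [if_pos (by omega), if_pos (by omega), if_pos (by omega), if_pos (by omega)] at h1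
      rw [show N - (N - k - 2 * (m + 2)) - 2 * (m + 2) = k by omega,
        show N - (N - k - 2 * (m + 2) + 1) - 2 * m = k + 3 by omega,
        show N - (N - k - 2 * (m + 2)) - 2 * (m + 1) = k + 2 by omega,
        show N - (N - k - 2 * (m + 2) + 1) - 2 * (m + 1) = k + 1 by omega] at h1
      linarith
    · rw [h.supp (m + 2) k (by omega), mul_zero]
      exact mul_nonneg (nn _ _) (nn _ _)
  · intro m k hk hpos
    rcases (nn m k).lt_or_eq with h1 | h1
    · exact h1
    · exfalso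
      have h2 := r0 m k
      rw [← h1, zero_mul] at h2
      exact absurd h2 (not_le.2 (mul_pos hpos (h.pos0 k hk)))

end Pool.Agent.Helper79.AF2
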